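import Pool.Agent.R774.ClStmt

/-!
# One-dimensional leaves near the chain recurrent set: definitions
-/

set_option autoImplicit false

open scoped Manifold ContDiff Topology
open Set Filter

universe u

namespace Pool.Agent.W99.PL

open Pool.Agent.H718R2.G Pool.Agent.R774.ClStmt Pool.Agent.R774.Cl

/-- the basis vector of `ℝ¹` -/
noncomputable def one : V 1 := EuclideanSpace.single (0 : Fin 1) (1 : ℝ)

/-- `Φ` is a smooth flow on `N`, and the chain recurrent set of `F` is the disjoint union of two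
closed invariant sets, contained in the open sets `O₀` and `O₁`. On `O₀` the flow is trivial. `O₁` is a
union of orbits of `Φ`, the leaves. `F` maps the leaves in `O₁` to leaves by ARBITRARY monotone maps:
`F (Φ_a y) = Φ_{α a} (F y)` with `α = α_y : ℝ → ℝ` continuous and nondecreasing. -/
structure LeafPieces {n : ℕ} {N : Type u} [TopologicalSpace N] [ChartedSpace (V n) N]
    (F : N → N) (Φ : V 1 → N → N) (O₀ O₁ : Set N) : Prop where
  action : IsAction 1 n N Φ
  open₀ : IsOpen O₀
  open₁ : IsOpen O₁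
  disj : Disjoint O₀ O₁
  chain : ∀ z, ChainRecOn F univ z → (z ∈ O₀ ∧ F z ∈ O₀) ∨ (z ∈ O₁ ∧ F z ∈ O₁)
  triv : ∀ x ∈ O₀, ∀ s, Φ s x = x
  sat : ∀ x ∈ O₁, ∀ s, Φ s x ∈ O₁
  leaves : ∀ y ∈ O₁, F y ∈ O₁ → ∃ α : ℝ → ℝ, Continuous α ∧ Monotone α ∧
    ∀ a : ℝ, F (Φ (a • one) y) = Φ (α a • one) (F y)

/-- The quadratic form `Q_x(v) = B_x (De v, De v)` increases under `DF` on the tangent vector `v` at
`x`. -/
def Incr {n m : ℕ} {N : Type u} [TopologicalSpace N] [ChartedSpace (V n) N]
    (F : N → N) (e : N → V m) (B : N → V m →L[ℝ] V m →L[ℝ] ℝ) (x : N) (v : V n) : Prop :=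
  quad e B x v < quad e B (F x) (dr (V n) (V n) F x v)

/-- The quadratic form `Q_x(v) = B_x (De v, De v)` is continuous, of any signature, and `e` and `B` are
constant on the orbits of `Φ` in `O₁`. -/
structure LeafConst {n m : ℕ} {N : Type u} [TopologicalSpace N] [ChartedSpace (V n) N]
    (Φ : V 1 → N → N) (O₁ : Set N) (e : N → V m) (B : N → V m →L[ℝ] V m →L[ℝ] ℝ) : Prop where
  smooth : ContMDiff (𝓡 n) (𝓡 m) 1 e
  cont : Continuous B
  inve : ∀ x ∈ O₁, ∀ s, e (Φ s x) = e x
  invB : ∀ x ∈ O₁, ∀ s, B (Φ s x) = B x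

/-- The leaves in `O₁` are not points. At the points of `O₀` the quadratic form increases strictly
under `DF` on all vectors `v ≠ 0` (so `F` is hyperbolic there), and at the points of `O₁` on all
vectors which are not tangent to the leaves (so `F` is hyperbolic transversally to the leaves). -/
structure TransQuad {n m : ℕ} {N : Type u} [TopologicalSpace N] [ChartedSpace (V n) N]
    (F : N → N) (Φ : V 1 → N → N) (O₀ O₁ : Set N) (e : N → V m)
    (B : N → V m →L[ℝ] V m →L[ℝ] ℝ) : Prop where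
  free : ∀ x ∈ O₁, ∀ s, orb (n := n) Φ x s = 0 → s = 0
  incr₀ : ∀ x ∈ O₀, F x ∈ O₀ → ∀ v : V n, v ≠ 0 → Incr F e B x v
  incr₁ : ∀ x ∈ O₁, F x ∈ O₁ → ∀ v : V n, (∀ s, v ≠ orb Φ x s) → Incr F e B x v

/-- Near its chain recurrent set `F` is hyperbolic (in `O₀`) or maps one-dimensional leaves to leaves
by arbitrary monotone maps and is hyperbolic transversally to the leaves (in `O₁`). Nothing is required
of `F` elsewhere, and no domination over the leaves is required. -/
def HasLeaves (n : ℕ) {N : Type u} [TopologicalSpace N] [ChartedSpace (V n) N] (F : N → N) : Prop :=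
  ∃ (Φ : V 1 → N → N) (O₀ O₁ : Set N), LeafPieces (n := n) F Φ O₀ O₁ ∧
    ∃ (m : ℕ) (e : N → V m) (B : N → V m →L[ℝ] V m →L[ℝ] ℝ),
      LeafConst (n := n) Φ O₁ e B ∧ TransQuad (n := n) F Φ O₀ O₁ e B

end Pool.Agent.W99.PL
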