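import Pool.Agent.W99.PC.Dense
import Pool.Agent.W99.PL.Defs

/-!
# Closing for diffeomorphisms with one-dimensional leaves near the chain recurrent set
-/

set_option autoImplicit false
set_option linter.unusedSectionVars false

open scoped Manifold ContDiff Topology
open Set Filter

universe u

namespace Pool.Agent.W99.PL

open Pool.Agent.H718R2.G Pool.Agent.TH80.OMS Pool.Agent.R774.ClStmt
  Pool.Agent.W5h63.AP Pool.Agent.R775.HL Pool.Agent.R774.Cl Pool.Agent.R774.OS

/-- all hypotheses -/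
structure LeafHyp {n m : ℕ} {N : Type u} [TopologicalSpace N] [ChartedSpace (V n) N]
    (F : N → N) (Φ : V 1 → N → N) (O₀ O₁ : Set N) (e : N → V m)
    (B : N → V m →L[ℝ] V m →L[ℝ] ℝ) : Prop where
  pieces : LeafPieces (n := n) F Φ O₀ O₁
  const : LeafConst (n := n) Φ O₁ e B
  trans : TransQuad (n := n) F Φ O₀ O₁ e B

section CR

variable {N : Type u} [MetricSpace N] [CompactSpace N] {F : N → N}

/-- the chain recurrent set is invariant -/
theorem CR_maps (hF : Continuous F) {z : N} (hz : z ∈ CR F) : F z ∈ CR F := by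
  refine mem_CR_of_near hF fun δ hδ => ?_
  obtain ⟨l, X, hl, h0, h1, h2⟩ := mem_CR.1 hz δ hδ
  refine ⟨X 1, ?_, l, fun j => X (j + 1), hl, rfl, fun j => ?_, fun j => h2 (j + 1)⟩
  · have := h2 0
    rwa [h0] at this
  · show X (j + l + 1) = X (j + 1)
    rw [show j + l + 1 = j + 1 + l by omega, h1]

/-- upper semicontinuity of the chain recurrent set -/
theorem CR_usc (hF : Continuous F) {U : Set N} (hU : IsOpen U) (hFU : CR F ⊆ U) :
    ∃ δ > 0, ∀ G : N → N, (∀ x, dist (G x) (F x) < δ) → CR G ⊆ U := by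
  obtain ⟨η, hη, hηU⟩ := (isClosed_CR hF).isCompact.exists_thickening_subset_open hU hFU
  obtain ⟨δ, hδ, h⟩ := near_CR hF hη
  refine ⟨δ / 2, by positivity, fun G hG z hz => ?_⟩
  apply hηU
  obtain ⟨l, X, hl, h0, h1, h2⟩ := mem_CR.1 hz (δ / 2) (by positivity)
  obtain ⟨c, hc, hzc⟩ := h z ⟨l, X, hl, h0, h1, fun j => by
    calc dist (F (X j)) (X (j + 1)) ≤ dist (F (X j)) (G (X j)) + dist (G (X j)) (X (j + 1)) :=
          dist_triangle _ _ _
      _ < δ / 2 + δ / 2 := by
        refine add_lt_add ?_ (h2 j)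
        rw [dist_comm]
        exact hG _
      _ = δ := by ring⟩
  exact Metric.mem_thickening_iff.2 ⟨c, hc, hzc⟩

end CR

variable {m n : ℕ} {N : Type u} [TopologicalSpace N] [T2Space N] [CompactSpace N]
  [ChartedSpace (V n) N] [IsManifold (𝓡 n) ∞ N] {r : ℕ∞}
  {Φ : V 1 → N → N} {O₀ O₁ : Set N} {e : N → V m} {B : N → V m →L[ℝ] V m →L[ℝ] ℝ}

namespace LeafHyp

variable {F : N → N} (h : LeafHyp (n := n) F Φ O₀ O₁ e B)

include h

theorem action : IsAction 1 n N Φ := h.pieces.action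
theorem open₀ : IsOpen O₀ := h.pieces.open₀
theorem open₁ : IsOpen O₁ := h.pieces.open₁
theorem disj : Disjoint O₀ O₁ := h.pieces.disj
theorem chain : ∀ z ∈ CR F, (z ∈ O₀ ∧ F z ∈ O₀) ∨ (z ∈ O₁ ∧ F z ∈ O₁) := h.pieces.chain
theorem triv : ∀ x ∈ O₀, ∀ s, Φ s x = x := h.pieces.triv
theorem sat : ∀ x ∈ O₁, ∀ s, Φ s x ∈ O₁ := h.pieces.sat
theorem leaves : ∀ y ∈ O₁, F y ∈ O₁ → ∃ α : ℝ → ℝ, Continuous α ∧ Monotone α ∧
    ∀ a : ℝ, F (Φ (a • e1) y) = Φ (α a • e1) (F y) := h.pieces.leaves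
theorem free : ∀ x ∈ O₁, ∀ s, orb (n := n) Φ x s = 0 → s = 0 := h.trans.free
theorem smooth : ContMDiff (𝓡 n) (𝓡 m) 1 e := h.const.smooth
theorem cont : Continuous B := h.const.cont
theorem inve : ∀ x ∈ O₁, ∀ s, e (Φ s x) = e x := h.const.inve
theorem invB : ∀ x ∈ O₁, ∀ s, B (Φ s x) = B x := h.const.invB
theorem incr₀ : ∀ x ∈ O₀, F x ∈ O₀ → ∀ v : V n, v ≠ 0 →
    quad e B x v < quad e B (F x) (dr (V n) (V n) F x v) := h.trans.incr₀
theorem incr₁ : ∀ x ∈ O₁, F x ∈ O₁ → ∀ v : V n, (∀ s, v ≠ orb Φ x s) →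
    quad e B x v < quad e B (F x) (dr (V n) (V n) F x v) := h.trans.incr₁

end LeafHyp

theorem LeafHyp.leaf {F : N → N} (h : LeafHyp (n := n) F Φ O₀ O₁ e B) {y : N} (hy : y ∈ O₁)
    (hFy : F y ∈ O₁) :
    ∃ α : ℝ → ℝ, Continuous α ∧ Monotone α ∧ α 0 = 0 ∧
      ∀ a : ℝ, F (Φ (a • e1) y) = Φ (α a • e1) (F y) := by
  obtain ⟨α, h1, h2, h3⟩ := h.leaves y hy hFy
  refine ⟨fun a => α a - α 0, h1.sub continuous_const, fun a b hab => ?_, sub_self _, fun a => ?_⟩
  · exact sub_le_sub_right (h2 hab) _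
  · have h4 : Φ (α 0 • e1) (F y) = F y := by
      rw [← h3 0, zero_smul, h.action.zero]
    rw [h3]
    show Φ (α a • e1) (F y) = Φ ((α a - α 0) • e1) (F y)
    conv_rhs => rw [← h4]
    rw [← PC.flow_add h.action, sub_add_cancel]

theorem LeafHyp.basic {F : N → N} (h : LeafHyp (n := n) F Φ O₀ O₁ e B) {x : N} (hx : x ∈ O₁)
    (v : V n) (s : V 1) : quad e B x (v + orb Φ x s) = quad e B x v := by
  have hsm : ContMDiff (𝓡 1) (𝓡 n) ∞ (fun s : V 1 => Φ s x) :=
    h.action.smooth.comp (contMDiff_id.prodMk contMDiff_const)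
  have h1 : dr (V 1) (V m) (fun s : V 1 => e (Φ s x)) 0 =
      (dr (V n) (V m) e (Φ 0 x)).comp (dr (V 1) (V n) (fun s : V 1 => Φ s x) 0) :=
    dr_comp ((h.smooth _).mdifferentiableAt (by simp)) ((hsm _).mdifferentiableAt (by simp))
  have h2 : (fun s : V 1 => e (Φ s x)) = fun _ => e x := funext fun s => h.inve x hx s
  have h3 : dr (V 1) (V m) (fun s : V 1 => e (Φ s x)) 0 = 0 := by
    rw [h2]
    exact mfderiv_const
  rw [h3, h.action.zero] at h1
  have h4 : dr (V n) (V m) e x (orb Φ x s) = 0 := by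
    have h5 := DFunLike.congr_fun h1 s
    exact h5.symm
  unfold quad
  rw [map_add, h4, add_zero]

/-- The hypotheses are satisfied by `Φ_c ∘ F` for small `c`. -/
theorem LeafHyp.fam {F : DiffM n N r} (hr : 1 ≤ r) (h : LeafHyp (n := n) F Φ O₀ O₁ e B) (c : ℝ)
    (hc : CR (PC.fam h.action F c) ⊆ {z | (z ∈ O₀ ∧ F z ∈ O₀) ∨ (z ∈ O₁ ∧ F z ∈ O₁)}) :
    LeafHyp (n := n) (PC.fam h.action F c) Φ O₀ O₁ e B := by
  have hF1 : ContMDiff (𝓡 n) (𝓡 n) 1 F := F.contMDiff_toFun.of_le (by exact_mod_cast hr)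
  have hG1 : ContMDiff (𝓡 n) (𝓡 n) 1 (PC.fam h.action F c) :=
    (PC.fam h.action F c).contMDiff_toFun.of_le (by exact_mod_cast hr)
  have hback₁ : ∀ x, PC.fam h.action F c x ∈ O₁ → F x ∈ O₁ := by
    intro x hx
    have h1 := h.sat _ hx ((-c) • e1)
    rwa [PC.fam_apply, ← PC.flow_add h.action, neg_add_cancel, zero_smul, h.action.zero] at h1
  have hback₀ : ∀ x, PC.fam h.action F c x ∈ O₀ → PC.fam h.action F c x = F x := by
    intro x hx
    have h1 := h.triv _ hx ((-c) • e1)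
    rw [← h1]
    rw [PC.fam_apply, ← PC.flow_add h.action, neg_add_cancel, zero_smul, h.action.zero]
  refine ⟨⟨h.action, h.open₀, h.open₁, h.disj, fun z hz => ?_, h.triv, h.sat, fun y hy hFy => ?_⟩,
    h.const, ⟨h.free, fun x hx hFx v hv => ?_, fun x hx hFx v hv => ?_⟩⟩
  · rcases hc hz with h1 | h1
    · left
      refine ⟨h1.1, ?_⟩
      rw [PC.fam_apply, h.triv _ h1.2]
      exact h1.2
    · exact Or.inr ⟨h1.1, h.sat _ h1.2 _⟩
  · obtain ⟨α, h1, h2, h3⟩ := h.leaves y hy (hback₁ y hFy)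
    refine ⟨α, h1, h2, fun a => ?_⟩
    show PC.fam h.action F c (Φ (a • e1) y) = Φ (α a • e1) (PC.fam h.action F c y)
    rw [PC.fam_apply, PC.fam_apply, h3, ← PC.flow_add h.action, ← PC.flow_add h.action, add_comm]
  · have h1 := hback₀ x hFx
    rw [h1] at hFx
    have h2 : ((PC.fam h.action F c : N → N)) =ᶠ[𝓝 x] F := by
      filter_upwards [F.continuous.continuousAt.eventually (h.open₀.mem_nhds hFx)] with y hy
      rw [PC.fam_apply, h.triv _ hy]
    have h3 : dr (V n) (V n) (PC.fam h.action F c) x = dr (V n) (V n) F x := h2.mfderiv_eq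
    show quad e B x v < quad e B (PC.fam h.action F c x) (dr (V n) (V n) (PC.fam h.action F c) x v)
    rw [h1, h3]
    exact h.incr₀ x hx hFx v hv
  · have hFx' := hback₁ x hFx
    refine (h.incr₁ x hx hFx' v hv).trans_eq ?_
    have h1 : dr (V n) (V m) (fun y => e (F y)) x =
        (dr (V n) (V m) e (F x)).comp (dr (V n) (V n) F x) :=
      dr_comp ((h.smooth _).mdifferentiableAt (by simp)) ((hF1 _).mdifferentiableAt (by simp))
    have h2 : dr (V n) (V m) (fun y => e (PC.fam h.action F c y)) x =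
        (dr (V n) (V m) e (PC.fam h.action F c x)).comp (dr (V n) (V n) (PC.fam h.action F c) x) :=
      dr_comp ((h.smooth _).mdifferentiableAt (by simp)) ((hG1 _).mdifferentiableAt (by simp))
    have h3 : (fun y => e (PC.fam h.action F c y)) =ᶠ[𝓝 x] fun y => e (F y) := by
      filter_upwards [F.continuous.continuousAt.eventually (h.open₁.mem_nhds hFx')] with y hy
      rw [PC.fam_apply, h.inve _ hy]
    have h3' : dr (V n) (V m) (fun y => e (PC.fam h.action F c y)) x =
        dr (V n) (V m) (fun y => e (F y)) x := h3.mfderiv_eq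
    rw [h3', h1] at h2
    have h4 := DFunLike.congr_fun h2 v
    rw [ContinuousLinearMap.comp_apply, ContinuousLinearMap.comp_apply] at h4
    unfold quad
    rw [← h4, PC.fam_apply, h.invB _ hFx']

theorem LeafHyp.parts {F : N → N} (hF : Continuous F) (h : LeafHyp (n := n) F Φ O₀ O₁ e B) :
    IsClosed (CR F ∩ O₀) ∧ IsClosed (CR F ∩ O₁) ∧ (∀ x ∈ CR F ∩ O₀, F x ∈ CR F ∩ O₀) ∧
      (∀ x ∈ CR F ∩ O₁, F x ∈ CR F ∩ O₁) ∧ (∀ z ∈ CR F ∩ O₀, ChainRecOn F (CR F ∩ O₀) z) ∧
      ∀ z ∈ CR F ∩ O₁, ChainRecOn F (CR F ∩ O₁) z := by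
  have : SecondCountableTopology N := PC.metrizable n N
  let _ : MetricSpace N := TopologicalSpace.metrizableSpaceMetric N
  have hcl := isClosed_CR hF
  have h0 : IsClosed (CR F ∩ O₀) := by
    have e0 : CR F ∩ O₀ = CR F ∩ O₁ᶜ := by
      ext z
      constructor
      · rintro ⟨h1, h2⟩
        exact ⟨h1, fun h3 => Set.disjoint_left.1 h.disj h2 h3⟩
      · rintro ⟨h1, h2⟩
        rcases h.chain z h1 with h3 | h3
        · exact ⟨h1, h3.1⟩
        · exact absurd h3.1 h2
    rw [e0]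
    exact hcl.inter h.open₁.isClosed_compl
  have h1 : IsClosed (CR F ∩ O₁) := by
    have e0 : CR F ∩ O₁ = CR F ∩ O₀ᶜ := by
      ext z
      constructor
      · rintro ⟨h1, h2⟩
        exact ⟨h1, fun h3 => Set.disjoint_left.1 h.disj h3 h2⟩
      · rintro ⟨h1, h2⟩
        rcases h.chain z h1 with h3 | h3
        · exact absurd h3.1 h2
        · exact ⟨h1, h3.1⟩
    rw [e0]
    exact hcl.inter h.open₀.isClosed_compl
  have hi0 : ∀ x ∈ CR F ∩ O₀, F x ∈ CR F ∩ O₀ := by
    rintro x ⟨hx, hx0⟩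
    refine ⟨CR_maps hF hx, ?_⟩
    rcases h.chain x hx with h3 | h3
    · exact h3.2
    · exact absurd h3.1 (Set.disjoint_left.1 h.disj hx0)
  have hi1 : ∀ x ∈ CR F ∩ O₁, F x ∈ CR F ∩ O₁ := by
    rintro x ⟨hx, hx1⟩
    refine ⟨CR_maps hF hx, ?_⟩
    rcases h.chain x hx with h3 | h3
    · exact absurd hx1 (Set.disjoint_left.1 h.disj h3.1)
    · exact h3.2
  let Kb : Bool → Set N := fun b => if b then CR F ∩ O₁ else CR F ∩ O₀
  have hK : ∀ i, IsClosed (Kb i) := by
    intro i
    cases i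
    · exact h0
    · exact h1
  have hKi : ∀ i, ∀ x ∈ Kb i, F x ∈ Kb i := by
    intro i
    cases i
    · exact hi0
    · exact hi1
  have hd01 : Disjoint (CR F ∩ O₀) (CR F ∩ O₁) :=
    h.disj.mono inter_subset_right inter_subset_right
  have hdis : ∀ i j, i ≠ j → Disjoint (Kb i) (Kb j) := by
    intro i j hij
    cases i <;> cases j
    · exact absurd rfl hij
    · exact hd01
    · exact hd01.symm
    · exact absurd rfl hij
  have hun : ⋃ i, Kb i = CR F := by
    ext z
    simp only [mem_iUnion, Bool.exists_bool]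
    constructor
    · rintro (h3 | h3)
      · exact h3.1
      · exact h3.1
    · intro hz
      rcases h.chain z hz with h3 | h3
      · exact Or.inl ⟨hz, h3.1⟩
      · exact Or.inr ⟨hz, h3.1⟩
  refine ⟨h0, h1, hi0, hi1, fun z hz => ?_, fun z hz => ?_⟩
  · exact chainRec_part hK hdis hKi hun (i := false) hz (conley hF hz.1)
  · exact chainRec_part hK hdis hKi hun (i := true) hz (conley hF hz.1)

/-- **Closing in the family `Φ_c ∘ F`.** -/
theorem near_per (hr : 1 ≤ r) {F : DiffM n N r} (h : LeafHyp (n := n) F Φ O₀ O₁ e B) {z : N}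
    (hz : z ∈ CR F) {ε : ℝ} (hε : 0 < ε) {W : Set N} (hW : W ∈ 𝓝 z) :
    ∃ c : ℝ, |c| < ε ∧ ∃ y ∈ W, y ∈ Per (PC.fam h.action F c) := by
  obtain ⟨hc0, hc1, hi0, hi1, hch0, hch1⟩ := h.parts F.continuous
  have hF1 : ContMDiff (𝓡 n) (𝓡 n) 1 F :=
    F.contMDiff_toFun.of_le (by exact_mod_cast hr)
  obtain ⟨M, d, hd1, hd2, -⟩ := exists_embedding_euclidean_of_compact (I := 𝓡 n) (M := N)
  rcases h.chain z hz with hz0 | hz1
  · -- the hyperbolic part
    let Φ₀ : V 0 → N → N := fun _ y => y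
    have hΦ : Act (E := V n) Φ₀ := ⟨contMDiff_snd, fun _ => rfl⟩
    have horb : ∀ x s, dr (V 0) (V n) (fun s => Φ₀ s x) 0 s = 0 := by
      intro x s
      have h3 : dr (V 0) (V n) (fun _ : V 0 => x) 0 = 0 := mfderiv_const
      show dr (V 0) (V n) (fun _ : V 0 => x) 0 s = 0
      rw [h3]
      rfl
    obtain ⟨δ, hδ, hcl⟩ := closing (E := V n) (T := V 0) hΦ hF1 h.cont h.smooth
      (d := d) hd1.continuous hd2.injective hc0 hi0
      (fun x _ s _ => Subsingleton.elim _ _)
      (fun x _ v s => by rw [horb, add_zero])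
      (fun x hx v hv => h.incr₀ x hx.2 (hi0 x hx).2 v (fun h0 => hv 0 (by rw [horb, h0])))
      (Q := fun x y s => x = z → y ∈ W)
      (by
        intro x hx
        by_cases hxz : x = z
        · have h1 : Continuous (fun q : N × N × V 0 => q.2.1) :=
            continuous_fst.comp continuous_snd
          have hW' := hW
          rw [← hxz] at hW'
          filter_upwards [(h1.tendsto (x, x, (0 : V 0))).eventually hW'] with q hq _
          exact hq
        · have h1 : Continuous (fun q : N × N × V 0 => q.1) := continuous_fst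
          filter_upwards [(h1.tendsto (x, x, (0 : V 0))).eventually
            (isOpen_ne.mem_nhds hxz)] with q hq h2
          exact absurd h2 hq)
    obtain ⟨l, x, hl, hx0, hxl, hxK, hxW⟩ := hch0 z ⟨hz, hz0.1⟩ {q | ‖d q.2 - d q.1‖ < δ}
      (isOpen_lt ((hd1.continuous.comp continuous_snd).sub
        (hd1.continuous.comp continuous_fst)).norm continuous_const)
      (fun x => by simpa using hδ)
    have : NeZero l := ⟨by omega⟩
    obtain ⟨y, s, hys, hQ⟩ := hcl l (fun i => x i.val)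
      (fun i => hxK _ (ZMod.val_lt i).le) (fun i => by
        have h1 := hxW i.val (ZMod.val_lt i)
        rw [wrap (hxl.trans hx0.symm) i]
        exact h1)
    refine ⟨0, by rwa [abs_zero], y 0, hQ 0 (by rw [ZMod.val_zero, hx0]), l, hl, ?_⟩
    rw [PC.fam_zero]
    have hit : ∀ j : ℕ, F^[j] (y 0) = y (j : ZMod l) := by
      intro j
      induction j with
      | zero => simp
      | succ j ih =>
        have e1' : ((j + 1 : ℕ) : ZMod l) = (j : ZMod l) + 1 := by push_cast; rfl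
        rw [Function.iterate_succ_apply', ih, e1', ← hys]
    rw [hit, ZMod.natCast_self]
  · have hΦ : Act (E := V n) Φ :=
      ⟨h.action.smooth.of_le (by exact_mod_cast le_top), h.action.zero⟩
    obtain ⟨δ, hδ, hcl⟩ := closing (E := V n) (T := V 1) hΦ hF1 h.cont h.smooth
      (d := d) hd1.continuous hd2.injective hc1 hi1 (fun x hx => h.free x hx.2)
      (fun x hx v s => h.basic hx.2 v s)
      (fun x hx v hv => h.incr₁ x hx.2 (hi1 x hx).2 v hv)
      (Q := fun x y s => ‖s‖ < ε ∧ (x = z → y ∈ W) ∧ y ∈ O₁ ∧ F y ∈ O₁)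
      (by
        intro x hx
        have hc1 : Continuous (fun q : N × N × V 1 => q.2.1) := continuous_fst.comp continuous_snd
        have e2 : ∀ᶠ q : N × N × V 1 in 𝓝 (x, x, (0 : V 1)), ‖q.2.2‖ < ε := by
          have h1 : Continuous (fun q : N × N × V 1 => ‖q.2.2‖) :=
            (continuous_snd.comp continuous_snd).norm
          have h2 := h1.tendsto (x, x, (0 : V 1))
          simp only [norm_zero] at h2
          exact h2.eventually (gt_mem_nhds hε)
        have e3 : ∀ᶠ q : N × N × V 1 in 𝓝 (x, x, (0 : V 1)), (q.1 = z → q.2.1 ∈ W) := by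
          by_cases hxz : x = z
          · have hW' := hW
            rw [← hxz] at hW'
            filter_upwards [(hc1.tendsto (x, x, (0 : V 1))).eventually hW'] with q hq _
            exact hq
          · have h1 : Continuous (fun q : N × N × V 1 => q.1) := continuous_fst
            filter_upwards [(h1.tendsto (x, x, (0 : V 1))).eventually
              (isOpen_ne.mem_nhds hxz)] with q hq h2
            exact absurd h2 hq
        have e4 : ∀ᶠ q : N × N × V 1 in 𝓝 (x, x, (0 : V 1)), q.2.1 ∈ O₁ :=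
          (hc1.tendsto (x, x, (0 : V 1))).eventually (h.open₁.mem_nhds hx.2)
        have e5 : ∀ᶠ q : N × N × V 1 in 𝓝 (x, x, (0 : V 1)), F q.2.1 ∈ O₁ :=
          ((F.continuous.comp hc1).tendsto (x, x, (0 : V 1))).eventually
            (h.open₁.mem_nhds (hi1 x hx).2)
        filter_upwards [e2, e3, e4, e5] with q h2 h3 h4 h5
        exact ⟨h2, h3, h4, h5⟩)
    obtain ⟨l, x, hl, hx0, hxl, hxK, hxW⟩ := hch1 z ⟨hz, hz1.1⟩ {q | ‖d q.2 - d q.1‖ < δ}
      (isOpen_lt ((hd1.continuous.comp continuous_snd).sub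
        (hd1.continuous.comp continuous_fst)).norm continuous_const)
      (fun x => by simpa using hδ)
    have : NeZero l := ⟨by omega⟩
    obtain ⟨y, s, hys, hQ⟩ := hcl l (fun i => x i.val)
      (fun i => hxK _ (ZMod.val_lt i).le) (fun i => by
        have h1 := hxW i.val (ZMod.val_lt i)
        rw [wrap (hxl.trans hx0.symm) i]
        exact h1)
    have hy0 : y 0 ∈ W := (hQ 0).2.1 (by rw [ZMod.val_zero, hx0])
    choose α hαc hαm hα0 hα using fun j : ℕ => h.leaf (hQ (j : ZMod l)).2.2.1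
      (hQ (j : ZMod l)).2.2.2
    obtain ⟨c, a, hcε, ha0, has, hal⟩ := PC.close_ivt (l := l) hαc hαm hα0
      (s := fun j : ℕ => (s (j : ZMod l)) 0) hε (fun j => by
        have h1 : ‖s (j : ZMod l)‖ < ε := (hQ _).1
        rw [PC.eq_smul_e1' (s (j : ZMod l)), PC.norm_smul_e1] at h1
        exact h1)
    refine ⟨c, hcε, y 0, hy0, l, hl, ?_⟩
    have hit : ∀ j : ℕ, (PC.fam h.action F c)^[j] (y 0) = Φ (a j • e1) (y (j : ZMod l)) := by
      intro j
      induction j with
      | zero => simp [ha0, h.action.zero]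
      | succ j ih =>
        have e1' : ((j + 1 : ℕ) : ZMod l) = (j : ZMod l) + 1 := by push_cast; rfl
        have hstep : F (y (j : ZMod l)) =
            Φ ((-(s (j : ZMod l) 0)) • e1) (y ((j : ZMod l) + 1)) := by
          rw [neg_smul, ← PC.eq_smul_e1', ← hys, ← h.action.add, neg_add_cancel, h.action.zero]
        rw [Function.iterate_succ_apply', ih, PC.fam_apply, hα, hstep, ← PC.flow_add h.action,
          ← PC.flow_add h.action, has, e1']
        congr 2
        ring
    rw [hit, hal, zero_smul, h.action.zero, ZMod.natCast_self]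

end Pool.Agent.W99.PL
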